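import Mathlib
import Pool.Agent.Y125.XT.Res
import Pool.Agent.Y41.XT.L1

/-! The quadratic subfield of the `p`-th cyclotomic field and the residue of its zeta function. -/

set_option autoImplicit false

namespace Q263.CN

open NumberField IsCyclotomicExtension.Rat

section

variable (p : ℕ) [hpf : Fact p.Prime]

/-- the quadratic character with values in a ring -/
noncomputable def qc (R : Type*) [CommRing R] : MulChar (ZMod p) R :=
  (quadraticChar (ZMod p)).ringHomComp (Int.castRingHom R)

lemma qc_apply (R : Type*) [CommRing R] (a : ZMod p) :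
    qc p R a = ((quadraticChar (ZMod p) a : ℤ) : R) := rfl

variable (L : Type) [Field L] [NumberField L] [IsCyclotomicExtension {p} ℚ L]

/-- the additive character -/
noncomputable def ac : AddChar (ZMod p) L :=
  AddChar.zmodChar p (IsCyclotomicExtension.zeta_spec p ℚ L).pow_eq_one

/-- the Gauss sum -/
noncomputable def tau : L := gaussSum (qc p L) (ac p L)

lemma qc_quad (R : Type*) [CommRing R] : (qc p R).IsQuadratic :=
  (quadraticChar_isQuadratic (ZMod p)).comp _

lemma qc_ne_one (R : Type*) [Field R] [CharZero R] (h2 : p ≠ 2) : qc p R ≠ 1 := by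
  have h := quadraticChar_ne_one (F := ZMod p) (by rwa [ZMod.ringChar_zmod_n])
  rw [qc]
  exact (MulChar.ringHomComp_ne_one_iff (RingHom.injective_int (Int.castRingHom R))).mpr h

lemma ac_prim : (ac p L).IsPrimitive :=
  AddChar.zmodChar_primitive_of_primitive_root p (IsCyclotomicExtension.zeta_spec p ℚ L)

lemma tau_sq (h2 : p ≠ 2) : (tau p L) ^ 2 = ((quadraticChar (ZMod p) (-1) : ℤ) : L) * p := by
  rw [tau, gaussSum_sq (qc_ne_one p L h2) (qc_quad p L) (ac_prim p L), ZMod.card, qc_apply]

lemma sigma_tau (σ : Gal(L/ℚ)) : σ (tau p L) =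
    ((quadraticChar (ZMod p) (galEquivZMod p L σ : ZMod p) : ℤ) : L) * tau p L := by
  set b := galEquivZMod p L σ with hb
  have h1 : σ (tau p L) = gaussSum (qc p L) (AddChar.mulShift (ac p L) b) := by
    unfold tau gaussSum
    rw [map_sum]
    refine Finset.sum_congr rfl fun a _ => ?_
    rw [map_mul, qc_apply, map_intCast, AddChar.mulShift_apply]
    congr 1
    have h3 : (ac p L a) ^ p = 1 := by
      rw [← AddChar.map_nsmul_eq_pow, nsmul_eq_mul, CharP.cast_eq_zero, zero_mul,
        AddChar.map_zero_eq_one]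
    rw [galEquivZMod_apply_of_pow_eq p L σ h3, ← AddChar.map_nsmul_eq_pow, nsmul_eq_mul, ← hb]
    congr 1
    rw [ZMod.natCast_val, ZMod.cast_id]
  have h2 := gaussSum_mulShift (qc p L) (ac p L) b
  have h3 : qc p L (b : ZMod p) * qc p L (b : ZMod p) = 1 := by
    rw [qc_apply, ← Int.cast_mul, ← pow_two, quadraticChar_sq_one b.ne_zero, Int.cast_one]
  rw [h1, tau, ← h2, ← mul_assoc, ← qc_apply, h3, one_mul]

/-- the quadratic subfield -/
noncomputable def QF : IntermediateField ℚ L := IntermediateField.adjoin ℚ {tau p L}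

lemma mem_fixing (h2 : p ≠ 2) (σ : Gal(L/ℚ)) :
    σ ∈ (QF p L).fixingSubgroup ↔ quadraticChar (ZMod p) (galEquivZMod p L σ : ZMod p) = 1 := by
  have ht0 : tau p L ≠ 0 := by
    intro h0
    have h := tau_sq p L h2
    rw [h0] at h
    have hp0 : (p : L) ≠ 0 := by
      exact_mod_cast hpf.out.ne_zero
    have h3 : quadraticChar (ZMod p) (-1) ≠ 0 := by
      rw [Ne, quadraticChar_eq_zero_iff]
      exact neg_ne_zero.mpr one_ne_zero
    have h4 : ((quadraticChar (ZMod p) (-1) : ℤ) : L) ≠ 0 := by exact_mod_cast h3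
    apply mul_ne_zero h4 hp0
    rw [← h]
    ring
  constructor
  · intro h
    rw [IntermediateField.mem_fixingSubgroup_iff] at h
    have h1 := h (tau p L) (IntermediateField.mem_adjoin_simple_self ℚ _)
    rw [sigma_tau] at h1
    have h3 := mul_right_cancel₀ ht0 (h1.trans (one_mul _).symm)
    exact_mod_cast h3
  · intro h
    have h1 : σ (tau p L) = tau p L := by
      rw [sigma_tau, h, Int.cast_one, one_mul]
    have h3 : QF p L ≤ IntermediateField.fixedField (Subgroup.zpowers σ) := by
      unfold QF
      rw [IntermediateField.adjoin_le_iff]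
      intro y hy
      rw [Set.mem_singleton_iff] at hy
      subst hy
      have h5 : ∀ s ∈ Subgroup.zpowers σ, s (tau p L) = tau p L := by
        have : Subgroup.zpowers σ ≤ MulAction.stabilizer (Gal(L/ℚ)) (tau p L) := by
          rw [Subgroup.zpowers_le, MulAction.mem_stabilizer_iff]
          exact h1
        intro s hs
        exact MulAction.mem_stabilizer_iff.1 (this hs)
      intro s
      exact h5 s.1 s.2
    rw [IntermediateField.le_iff_le] at h3
    exact h3 (Subgroup.mem_zpowers σ)

open H300.HW in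
/-- the characters of the quadratic subfield -/
lemma mem_YY_iff (h2 : p ≠ 2) (χ : DirichletCharacter ℂ p) :
    χ ∈ YY p L (QF p L) ↔ χ = 1 ∨ χ = qc p ℂ := by
  rw [mem_YY]
  have hsurj : ∀ b : (ZMod p)ˣ, ∃ σ : Gal(L/ℚ), galEquivZMod p L σ = b := fun b =>
    ⟨(galEquivZMod p L).symm b, MulEquiv.apply_symm_apply _ _⟩
  constructor
  · intro h
    have h1 : ∀ b : (ZMod p)ˣ, quadraticChar (ZMod p) (b : ZMod p) = 1 → χ (b : ZMod p) = 1 := by
      intro b hb
      obtain ⟨σ, rfl⟩ := hsurj b
      exact h σ ((mem_fixing p L h2 σ).2 hb)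
    -- a nonsquare
    obtain ⟨g, hg⟩ : ∃ g : (ZMod p)ˣ, quadraticChar (ZMod p) (g : ZMod p) = -1 := by
      obtain ⟨a, ha⟩ := quadraticChar_exists_neg_one' (F := ZMod p) (by rwa [ZMod.ringChar_zmod_n])
      exact ⟨a, ha⟩
    have h3 : χ (g : ZMod p) * χ (g : ZMod p) = 1 := by
      rw [← map_mul, ← Units.val_mul]
      apply h1
      rw [Units.val_mul, map_mul, hg]
      norm_num
    have h4 : ∀ b : (ZMod p)ˣ, quadraticChar (ZMod p) (b : ZMod p) = -1 →
        χ (b : ZMod p) = χ (g : ZMod p) := by
      intro b hb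
      have h5 : χ ((b * g : (ZMod p)ˣ) : ZMod p) = 1 := by
        apply h1
        rw [Units.val_mul, map_mul, hg, hb]
        norm_num
      rw [Units.val_mul, map_mul] at h5
      calc χ (b : ZMod p) = χ (b : ZMod p) * (χ (g : ZMod p) * χ (g : ZMod p)) := by
            rw [h3, mul_one]
        _ = (χ (b : ZMod p) * χ (g : ZMod p)) * χ (g : ZMod p) := by ring
        _ = χ (g : ZMod p) := by rw [h5, one_mul]
    have h5 : χ (g : ZMod p) = 1 ∨ χ (g : ZMod p) = -1 := mul_self_eq_one_iff.1 h3
    rcases h5 with h5 | h5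
    · left
      apply MulChar.ext
      intro b
      rw [MulChar.one_apply_coe]
      rcases quadraticChar_dichotomy b.ne_zero with hb | hb
      · exact h1 b hb
      · rw [h4 b hb, h5]
    · right
      apply MulChar.ext
      intro b
      rw [qc_apply]
      rcases quadraticChar_dichotomy b.ne_zero with hb | hb
      · rw [h1 b hb, hb, Int.cast_one]
      · rw [h4 b hb, h5, hb]
        push_cast
        rfl
  · rintro (rfl | rfl) σ hσ
    · exact MulChar.one_apply_coe _
    · rw [qc_apply, (mem_fixing p L h2 σ).1 hσ, Int.cast_one]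

/-- a nontrivial character of prime level is primitive -/
lemma prim_of_ne_one {χ : DirichletCharacter ℂ p} (h : χ ≠ 1) : χ.IsPrimitive := by
  have h1 := χ.conductor_dvd_level
  rcases (Nat.dvd_prime hpf.out).1 h1 with h2 | h2
  · exact absurd (DirichletCharacter.eq_one_iff_conductor_eq_one.2 h2) h
  · exact h2

lemma Lp_eq {χ : DirichletCharacter ℂ p} (h : χ ≠ 1) :
    Pool.Agent.Y125.XT.Lp p χ 1 = DirichletCharacter.LFunction χ 1 := by
  have hprim := prim_of_ne_one p h
  haveI : NeZero χ.conductor := ⟨χ.conductor_ne_zero⟩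
  have h1 := DirichletCharacter.LFunction_changeLevel χ.conductor_dvd_level χ.primitiveCharacter
    (s := 1) (Or.inl (by
      intro h0
      have h2 := χ.changeLevel_primitiveCharacter
      rw [h0, DirichletCharacter.changeLevel_one] at h2
      exact h h2.symm))
  rw [χ.changeLevel_primitiveCharacter] at h1
  have h3 : ∏ q ∈ p.primeFactors, (1 - χ.primitiveCharacter (q : ZMod χ.conductor) *
      (q : ℂ) ^ (-(1 : ℂ))) = 1 := by
    rw [hpf.out.primeFactors, Finset.prod_singleton]
    have h4 : ((p : ℕ) : ZMod χ.conductor) = 0 := by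
      rw [ZMod.natCast_eq_zero_iff]
      exact dvd_of_eq hprim
    have h5 : χ.primitiveCharacter ((p : ℕ) : ZMod χ.conductor) = 0 := by
      rw [h4]
      apply MulChar.map_nonunit
      rw [isUnit_zero_iff]
      intro h0
      have hsub : Subsingleton (ZMod χ.conductor) := subsingleton_of_zero_eq_one h0
      have h6 : χ.conductor = 1 := by
        rw [← ZMod.subsingleton_iff]
        exact hsub
      rw [DirichletCharacter.IsPrimitive] at hprim
      rw [h6] at hprim
      exact hpf.out.one_lt.ne hprim
    rw [h5, zero_mul, sub_zero]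
  rw [h3, mul_one] at h1
  exact h1.symm

open H300.HW in
open Classical in
/-- the residue of the zeta function of the quadratic subfield -/
theorem residue_QF (h2 : p ≠ 2) : (dedekindZeta_residue (QF p L) : ℂ) =
    DirichletCharacter.LFunction (qc p ℂ : DirichletCharacter ℂ p) 1 := by
  rw [Pool.Agent.Y125.XT.residue_eq p L (QF p L)]
  have hmem : (qc p ℂ : DirichletCharacter ℂ p) ∈ YY p L (QF p L) :=
    (mem_YY_iff p L h2 _).2 (Or.inr rfl)
  have hne := qc_ne_one p ℂ h2
  have h1 : (Finset.univ : Finset (YY p L (QF p L))).erase 1 =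
      {(⟨(qc p ℂ : DirichletCharacter ℂ p), hmem⟩ : YY p L (QF p L))} := by
    ext χ
    rw [Finset.mem_erase, Finset.mem_singleton]
    constructor
    · rintro ⟨h3, -⟩
      rcases (mem_YY_iff p L h2 χ.1).1 χ.2 with h4 | h4
      · exact absurd (Subtype.ext h4) h3
      · exact Subtype.ext h4
    · rintro rfl
      refine ⟨?_, Finset.mem_univ _⟩
      intro h3
      exact hne (congrArg Subtype.val h3)
  rw [h1, Finset.prod_singleton]
  exact Lp_eq p hne

end

end Q263.CN
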